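import Pool.Agent.W593.ZT.Stm

/-! Project ZT, part KU: a minimal bad subgroup with enough units. -/

open scoped Classical

set_option autoImplicit false

namespace Pool.Agent.W212.ZT

open Pool.Agent.W593.ZT

lemma ncl_bot {G : Type} [AddCommGroup G] (A : Finset G) :
    ncl (⊥ : AddSubgroup G) A = A.card := by
  unfold ncl
  apply Finset.card_image_of_injective
  intro x y h
  have h' := (QuotientAddGroup.eq (s := (⊥ : AddSubgroup G))).1 h
  rw [AddSubgroup.mem_bot] at h'
  exact (neg_add_eq_zero.1 h')

lemma two_le_ncl {G : Type} [AddCommGroup G] (R : AddSubgroup G) (A : Finset G)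
    (h : ¬ Tc R A) : 2 ≤ ncl R A := by
  unfold Tc at h
  push Not at h
  obtain ⟨x, hx, y, hy, hxy⟩ := h
  unfold ncl
  have : 1 < (A.image (fun x => (QuotientAddGroup.mk x : G ⧸ R))).card := by
    rw [Finset.one_lt_card]
    refine ⟨_, Finset.mem_image_of_mem _ hx, _, Finset.mem_image_of_mem _ hy, ?_⟩
    intro he
    apply hxy
    have h' := (QuotientAddGroup.eq (s := R)).1 he.symm
    rwa [show x - y = -y + x by abel]
  exact this

lemma mem_wr {V G : Type} [AddCommGroup G] (c : V → V → G) (T : AddSubgroup G) (a : G)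
    (W H : Finset V) (z : V) :
    z ∈ wr c T a W H ↔ (z ∈ W ∧ z ∉ H) ∧ ¬ ∀ h ∈ H, c z h - a ∈ T := by
  rw [wr, Finset.mem_filter, Finset.mem_sdiff]

lemma mem_va {V G : Type} [AddCommGroup G] (c : V → V → G) (T : AddSubgroup G) (a : G)
    (W H : Finset V) (z : V) :
    z ∈ va c T a W H ↔ (z ∈ W ∧ z ∉ H) ∧ ∀ h ∈ H, c z h - a ∈ T := by
  rw [va, Finset.mem_filter, Finset.mem_sdiff]

lemma mem_nc {V G : Type} [AddCommGroup G] (c : V → V → G) (T : AddSubgroup G)
    (W H : Finset V) (z : V) :
    z ∈ nc c T W H ↔ (z ∈ W ∧ z ∉ H) ∧ ¬ Tc T (Cs c H z) := by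
  rw [nc, Finset.mem_filter, Finset.mem_sdiff]

/-- the covering of `M` by few vertices -/
lemma small (hK2 : S_K2) {V G : Type} [Fintype V] [AddCommGroup G] [Fintype G]
    (c : V → V → G) (M : AddSubgroup G) (B : Finset V) (hB : B.Nonempty)
    (hR : ∀ R : AddSubgroup G, R ≠ ⊥ → R < M →
      R.index ≤ (nc c R Finset.univ B).card + 1) (K : Finset V)
    (hK : K.card + (nc c M Finset.univ B).card + 2 ≤ 2 * M.index)
    (hs : Nat.card M ≤ 1 + ∑ z ∈ ((Finset.univ \ B) \ nc c M Finset.univ B) \ K,
      ((Cs c B z).card - 1)) :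
    (∀ z ∈ ((Finset.univ \ B) \ nc c M Finset.univ B) \ K,
      (Cs c B z).Nonempty ∧ Tc M (Cs c B z)) ∧
    ∃ Z' ⊆ ((Finset.univ \ B) \ nc c M Finset.univ B) \ K,
      Z'.card + 1 ≤ Nat.card M ∧ Cov ⊥ M Z' (Cs c B) := by
  have hA : ∀ z ∈ ((Finset.univ \ B) \ nc c M Finset.univ B) \ K,
      (Cs c B z).Nonempty ∧ Tc M (Cs c B z) := by
    intro z hz
    refine ⟨hB.image _, ?_⟩
    by_contra hcon
    simp only [Finset.mem_sdiff, Finset.mem_univ, true_and, nc, Finset.mem_filter] at hz
    exact hz.1.2 ⟨hz.1.1, hcon⟩
  refine ⟨hA, ?_⟩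
  have key := hK2 V G ⊥ M bot_le (((Finset.univ \ B) \ nc c M Finset.univ B) \ K) (Cs c B) hA ?_
  · obtain ⟨Z', h1, h2, h3⟩ := key
    refine ⟨Z', h1, ?_, h3⟩
    rwa [AddSubgroup.relIndex_bot_left] at h2
  · intro R _ hRM
    by_cases hb : R = ⊥
    · subst hb
      rw [AddSubgroup.relIndex_bot_left]
      simp only [ncl_bot]
      exact hs
    · have h1 := hR R hb hRM
      have h2 : R.relIndex M * M.index = R.index := AddSubgroup.relIndex_mul_index hRM.le
      have h3 : R.relIndex M ≠ 1 := by
        intro h
        exact absurd (AddSubgroup.relIndex_eq_one.1 h) (not_le_of_gt hRM)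
      have h0 : R.relIndex M ≠ 0 := by
        intro h
        rw [h, zero_mul] at h2
        exact AddSubgroup.index_ne_zero_of_finite h2.symm
      have hM0 : M.index ≠ 0 := AddSubgroup.index_ne_zero_of_finite
      -- the count
      have hsub : nc c R Finset.univ B ⊆ nc c M Finset.univ B ∪ K ∪
          (((Finset.univ \ B) \ nc c M Finset.univ B) \ K).filter
            (fun z => ¬ Tc R (Cs c B z)) := by
        intro z hz
        rw [nc, Finset.mem_filter] at hz
        by_cases ha : z ∈ nc c M Finset.univ B
        · exact Finset.mem_union_left _ (Finset.mem_union_left _ ha)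
        · by_cases hb : z ∈ K
          · exact Finset.mem_union_left _ (Finset.mem_union_right _ hb)
          · refine Finset.mem_union_right _ ?_
            rw [Finset.mem_filter]
            refine ⟨?_, hz.2⟩
            rw [Finset.mem_sdiff, Finset.mem_sdiff]
            exact ⟨⟨hz.1, ha⟩, hb⟩
      have hc := Finset.card_le_card hsub
      have hc2 := Finset.card_union_le (nc c M Finset.univ B ∪ K)
        ((((Finset.univ \ B) \ nc c M Finset.univ B) \ K).filter
            (fun z => ¬ Tc R (Cs c B z)))
      have hc3 := Finset.card_union_le (nc c M Finset.univ B) K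
      have hsum : ((((Finset.univ \ B) \ nc c M Finset.univ B) \ K).filter
            (fun z => ¬ Tc R (Cs c B z))).card ≤
          ∑ z ∈ ((Finset.univ \ B) \ nc c M Finset.univ B) \ K, (ncl R (Cs c B z) - 1) := by
        rw [Finset.card_filter]
        apply Finset.sum_le_sum
        intro z _
        by_cases h : Tc R (Cs c B z)
        · simp [h]
        · have := two_le_ncl R _ h
          simp only [h, not_false_eq_true, if_true]
          omega
      obtain ⟨t, ht⟩ : ∃ t, R.relIndex M = t + 2 := ⟨R.relIndex M - 2, by omega⟩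
      rw [ht] at h2 ⊢
      obtain ⟨q, hq⟩ : ∃ q, M.index = q + 1 := ⟨M.index - 1, by omega⟩
      rw [hq] at h2 hK
      have h5 : (t + 2) * (q + 1) = t * q + t + 2 * (q + 1) := by ring
      have h6 : 0 ≤ t * q := Nat.zero_le _
      omega

theorem ku (hPL : S_PL) (hK2 : S_K2) (hCOMP : S_COMP) (hT2 : S_TREE2) (hNSL : S_NSL) :
    S_KU := by
  intro V G _ _ _ c hc M B hB hMt hM2 hnu hR hK hs hv
  obtain ⟨b1, hb1⟩ := hB
  have hBn : B.Nonempty := ⟨b1, hb1⟩
  have hmin : min (nc c M Finset.univ B).card (M.index - 1) = (nc c M Finset.univ B).card := by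
    apply min_eq_left; omega
  rcases hPL V G c hc.sym M Finset.univ B b1 hMt (Finset.subset_univ _) hb1 (by omega) with
    hi | ⟨S', a, Hp, z0, s, hii⟩
  · obtain ⟨Hp, L, A, hBH, -, hL, hA, hcov, hcard⟩ := hi
    rw [hmin] at hcard
    have hKc : ((Hp \ B) ∪ L).card ≤ (Hp \ B).card + L.card := Finset.card_union_le _ _
    have hK' : ((Hp \ B) ∪ L).card + (nc c M Finset.univ B).card + 2 ≤ 2 * M.index := by omega
    obtain ⟨hAA, Z', hZ', -, hcov'⟩ := small hK2 c M B hBn hR ((Hp \ B) ∪ L) hK' (hK _ hK')
    have hZB : ∀ z ∈ Z', z ∉ B ∧ z ∉ Hp ∧ z ∉ L := by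
      intro z hz
      have h := hZ' hz
      rw [Finset.mem_sdiff, Finset.mem_sdiff, Finset.mem_sdiff, Finset.mem_union,
        Finset.mem_sdiff] at h
      refine ⟨h.1.1.2, fun h1 => h.2 (Or.inl ⟨h1, h.1.1.2⟩), fun h1 => h.2 (Or.inr h1)⟩
    have hdis : Disjoint Z' L := by
      rw [Finset.disjoint_left]
      intro z hz; exact (hZB z hz).2.2
    have hcv := hCOMP V G ⊥ M ⊤ Z' L (Cs c B) A le_top hdis (fun z hz => hAA z (hZ' hz))
      (fun z hz => (hA z hz).1) hcov' hcov
    apply hc.not
    refine hT2 V G c hc.sym Hp (Z' ∪ L) _ ⟨b1, hBH hb1⟩ ?_ ?_ hcv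
    · intro z hz
      rcases Finset.mem_union.1 hz with h | h
      · rw [Finset.mem_sdiff]; exact ⟨Finset.mem_univ _, (hZB z h).2.1⟩
      · exact hL h
    · intro z hz
      by_cases h : z ∈ Z'
      · simp only [h, if_true]
        refine ⟨(hAA z (hZ' h)).1, ?_⟩
        exact Finset.image_subset_image hBH
      · simp only [h, if_false]
        rcases Finset.mem_union.1 hz with h' | h'
        · exact absurd h' h
        · exact hA z h'
  · obtain ⟨L, hz, hL, hLs, hhz, hcov⟩ := hii.lv {z0} (by simp)
    have hbx := hii.bx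
    rw [hmin] at hbx
    set w := wr c S' a Finset.univ Hp with hw
    have hKc : ((Hp \ B) ∪ L ∪ w ∪ {z0}).card ≤ (Hp \ B).card + L.card + w.card + 1 := by
      have h1 := Finset.card_union_le ((Hp \ B) ∪ L ∪ w) {z0}
      have h2 := Finset.card_union_le ((Hp \ B) ∪ L) w
      have h3 := Finset.card_union_le (Hp \ B) L
      rw [Finset.card_singleton] at h1
      omega
    have hK' : ((Hp \ B) ∪ L ∪ w ∪ {z0}).card + (nc c M Finset.univ B).card + 2 ≤
      2 * M.index := by omega
    obtain ⟨hAA, Z', hZ', hZc, hcov'⟩ := small hK2 c M B hBn hR _ hK' (hK _ hK')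
    have hZB : ∀ z ∈ Z', z ∉ B ∧ z ∉ Hp ∧ z ∉ L ∧ z ∉ w ∧ z ≠ z0 := by
      intro z hz
      have h := hZ' hz
      simp only [Finset.mem_sdiff, Finset.mem_union, Finset.mem_univ, true_and,
        Finset.mem_singleton, not_or, not_and, not_not] at h
      refine ⟨h.1.1, fun h1 => h.1.1 (h.2.1.1.1 h1), h.2.1.1.2, h.2.1.2, h.2.2⟩
    have hZa : ∀ z ∈ Z', ∀ h ∈ Hp, c z h - a ∈ S' := by
      intro z hz
      have h := hZB z hz
      by_contra hcon
      apply h.2.2.2.1
      rw [hw, mem_wr]
      exact ⟨⟨Finset.mem_univ _, h.2.1⟩, hcon⟩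
    have hLa : ∀ z ∈ L, z ∉ Hp ∧ (∀ h ∈ Hp, c z h - a ∈ S') ∧ z ≠ z0 := by
      intro z hz
      have h := hL hz
      rw [Finset.mem_sdiff, mem_va, Finset.mem_singleton] at h
      exact ⟨h.1.1.2, h.1.2, h.2⟩
    have hdis : Disjoint Z' L := by
      rw [Finset.disjoint_left]
      intro z hz; exact (hZB z hz).2.2.1
    have hcv := hCOMP V G ⊥ M S' Z' L (Cs c B) (fun z => {c z b1, c z (hz z)}) hii.le hdis
      (fun z hz => hAA z (hZ' hz)) (fun z _ => ⟨c z b1, Finset.mem_insert_self _ _⟩) hcov' hcov
    set AA : V → Finset G := fun z => if z ∈ Z' then Cs c B z else {c z b1, c z (hz z)} with hAAd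
    have hsumm : ∑ z ∈ Z' ∪ L, c z b1 - (Z' ∪ L).card • a ∈ S' := by
      have : ∑ z ∈ Z' ∪ L, c z b1 - (Z' ∪ L).card • a = ∑ z ∈ Z' ∪ L, (c z b1 - a) := by
        rw [Finset.sum_sub_distrib, Finset.sum_const]
      rw [this]
      apply AddSubgroup.sum_mem
      intro z hz
      rcases Finset.mem_union.1 hz with h | h
      · exact hZa z h b1 (hii.sub hb1)
      · exact (hLa z h).2.1 b1 (hii.sub hb1)
    have hr0 : ∀ z ∈ Z' ∪ L, c z b1 ∈ AA z := by
      intro z _
      simp only [hAAd]
      split_ifs with h
      · exact Finset.mem_image_of_mem _ hb1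
      · exact Finset.mem_insert_self _ _
    have hcu : (Finset.univ \ B).card = Fintype.card V - B.card := by
      rw [Finset.card_sdiff_of_subset (Finset.subset_univ _), Finset.card_univ]
    have hBV : B.card ≤ Fintype.card V := Finset.card_le_univ _
    rcases hii.lev with ⟨h1, h2, h3⟩ | h
    · -- first alternative
      subst h2
      subst h3
      have hL0 : L = ∅ := Finset.card_eq_zero.1 (by omega)
      have hfin := hNSL V G c hc S' a Hp (Z' ∪ L) AA (fun z => c z b1) hii.ne hBn ?_ ?_ hcv hr0
        hsumm
      · have hsub : (Finset.univ \ Hp) ⊆ ((Finset.univ \ (Hp ∪ (Z' ∪ L))).filter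
            (fun y => ∃ h ∈ Hp, c y h - a ∈ S')) ∪ (w ∪ Z') := by
          intro y hy
          by_cases h1 : y ∈ w ∪ Z'
          · exact Finset.mem_union_right _ h1
          · refine Finset.mem_union_left _ ?_
            rw [Finset.mem_union, not_or] at h1
            rw [Finset.mem_sdiff] at hy
            rw [Finset.mem_filter, Finset.mem_sdiff, Finset.mem_union, Finset.mem_union, hL0]
            refine ⟨⟨Finset.mem_univ _, ?_⟩, ?_⟩
            · rintro (h | h | h)
              · exact hy.2 h
              · exact h1.2 h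
              · exact absurd h (Finset.notMem_empty _)
            · by_contra hcon
              push Not at hcon
              apply h1.1
              rw [hw, mem_wr]
              exact ⟨⟨Finset.mem_univ _, hy.2⟩, fun h => hcon b1 hb1 (h b1 hb1)⟩
        have e1 := Finset.card_le_card hsub
        have e2 := Finset.card_union_le ((Finset.univ \ (Hp ∪ (Z' ∪ L))).filter
            (fun y => ∃ h ∈ Hp, c y h - a ∈ S')) (w ∪ Z')
        have e3 := Finset.card_union_le w Z'
        have e4 := hii.wrb
        rw [← hw] at e4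
        rw [h1] at e4 hfin hsub e1 e2
        omega
      · rw [Finset.disjoint_left]
        intro z hzz hz2
        rcases Finset.mem_union.1 hz2 with h | h
        · exact (hZB z h).1 hzz
        · exact (hLa z h).1 hzz
      · intro z hzz
        simp only [hAAd]
        split_ifs with h
        · exact subset_rfl
        · intro x hx
          rw [Finset.mem_insert, Finset.mem_singleton] at hx
          have hzL : z ∈ L := by
            rcases Finset.mem_union.1 hzz with h' | h'
            · exact absurd h' h
            · exact h'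
          rcases hx with hx | hx
          · rw [hx]; exact Finset.mem_image_of_mem _ hb1
          · rw [hx]; exact Finset.mem_image_of_mem _ (hhz z hzL)
    · -- second and third alternative
      have hlev : (s + 1) * S'.index ≤ M.index ∧ 2 * S'.index ≤ M.index := by
        rcases h with h | h
        · exact ⟨h.2.1, h.2.2.1⟩
        · refine ⟨h.2.2.1, ?_⟩
          have := h.2.2.2.1
          omega
      have hv2 : 2 ≤ S'.index := by
        have h0 : S'.index ≠ 0 := AddSubgroup.index_ne_zero_of_finite
        have h1 : S'.index ≠ 1 := by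
          intro h; exact hii.ne (AddSubgroup.index_eq_one.1 h)
        omega
      have hvv := hv S'.index s hv2 hlev.2 hlev.1
      have hz0H : z0 ∉ Hp := (Finset.mem_sdiff.1 hii.z0W).2
      have hfin := hNSL V G c hc S' a (insert z0 (B ∪ L.image hz)) (Z' ∪ L) AA
        (fun z => c z b1) hii.ne ⟨z0, Finset.mem_insert_self _ _⟩ ?_ ?_ hcv hr0 hsumm
      · have hsub : (Finset.univ \ B) ⊆
            ((Finset.univ \ ((insert z0 (B ∪ L.image hz)) ∪ (Z' ∪ L))).filter
            (fun y => ∃ h ∈ (insert z0 (B ∪ L.image hz)), c y h - a ∈ S')) ∪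
            (w ∪ (({z0} ∪ L.image hz) ∪ (Z' ∪ L))) := by
          intro y hy
          by_cases h1 : y ∈ w ∪ (({z0} ∪ L.image hz) ∪ (Z' ∪ L))
          · exact Finset.mem_union_right _ h1
          · refine Finset.mem_union_left _ ?_
            rw [Finset.mem_union, Finset.mem_union, Finset.mem_union, Finset.mem_union,
              Finset.mem_singleton] at h1
            push Not at h1
            rw [Finset.mem_sdiff] at hy
            rw [Finset.mem_filter, Finset.mem_sdiff]
            refine ⟨⟨Finset.mem_univ _, ?_⟩, z0, Finset.mem_insert_self _ _, ?_⟩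
            · intro hh
              rw [Finset.mem_union, Finset.mem_insert, Finset.mem_union, Finset.mem_union] at hh
              rcases hh with (hh | hh | hh) | hh | hh
              · exact h1.2.1.1 hh
              · exact hy.2 hh
              · exact h1.2.1.2 hh
              · exact h1.2.2.1 hh
              · exact h1.2.2.2 hh
            · rw [hc.sym]
              apply hii.root y (Finset.mem_univ _) h1.2.1.1
              intro hh
              apply h1.1
              rw [mem_nc] at hh
              rw [hw, mem_wr]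
              refine ⟨hh.1, fun hall => hh.2 ?_⟩
              intro x hx x' hx'
              rw [Cs, Finset.mem_image] at hx hx'
              obtain ⟨p, hp, rfl⟩ := hx
              obtain ⟨p', hp', rfl⟩ := hx'
              have := S'.sub_mem (hall p hp) (hall p' hp')
              rwa [sub_sub_sub_cancel_right] at this
        have e1 := Finset.card_le_card hsub
        have e2 := Finset.card_union_le
          ((Finset.univ \ ((insert z0 (B ∪ L.image hz)) ∪ (Z' ∪ L))).filter
            (fun y => ∃ h ∈ (insert z0 (B ∪ L.image hz)), c y h - a ∈ S'))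
            (w ∪ (({z0} ∪ L.image hz) ∪ (Z' ∪ L)))
        have e3 := Finset.card_union_le w (({z0} ∪ L.image hz) ∪ (Z' ∪ L))
        have e4 := hii.wrb
        rw [← hw] at e4
        have e5 := Finset.card_union_le ({z0} ∪ L.image hz) (Z' ∪ L)
        have e6 := Finset.card_union_le {z0} (L.image hz)
        have e7 := Finset.card_union_le Z' L
        have e8 : (L.image hz).card ≤ L.card := Finset.card_image_le
        rw [Finset.card_singleton] at e6
        omega
      · rw [Finset.disjoint_left]
        intro z hzz hz2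
        rw [Finset.mem_insert, Finset.mem_union, Finset.mem_image] at hzz
        rcases Finset.mem_union.1 hz2 with h | h
        · have h' := hZB z h
          rcases hzz with h1 | h1 | ⟨y, hy, h1⟩
          · exact h'.2.2.2.2 h1
          · exact h'.1 h1
          · exact h'.2.1 (h1 ▸ hhz y hy)
        · have h' := hLa z h
          rcases hzz with h1 | h1 | ⟨y, hy, h1⟩
          · exact h'.2.2 h1
          · exact h'.1 (hii.sub h1)
          · exact h'.1 (h1 ▸ hhz y hy)
      · intro z hzz
        simp only [hAAd]
        split_ifs with h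
        · apply Finset.image_subset_image
          intro x hx
          exact Finset.mem_insert_of_mem (Finset.mem_union_left _ hx)
        · intro x hx
          rw [Finset.mem_insert, Finset.mem_singleton] at hx
          have hzL : z ∈ L := by
            rcases Finset.mem_union.1 hzz with h' | h'
            · exact absurd h' h
            · exact h'
          rcases hx with hx | hx
          · rw [hx]
            exact Finset.mem_image_of_mem _
              (Finset.mem_insert_of_mem (Finset.mem_union_left _ hb1))
          · rw [hx]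
            exact Finset.mem_image_of_mem _ (Finset.mem_insert_of_mem
              (Finset.mem_union_right _ (Finset.mem_image_of_mem _ hzL)))

end Pool.Agent.W212.ZT
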